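import Mathlib
import Pool.Agent.W558.S.Stms

set_option autoImplicit false
set_option linter.unusedSectionVars false

/-!
# Job 1052 (VQ-POW, MP_19ffc6_ag)

A smooth projective surface model of `E` over a perfect field `k` of characteristic `p` gives one
of the field `E ^ p` of `p`-th powers (transport along the Frobenius).
-/

universe u

namespace Pool.Agent.TH26.WQ

open Pool.Agent.W558

section

variable {p : ℕ} [hp : Fact p.Prime] {k E : Type u} [Field k] [PerfectField k] [CharP k p]
    [Field E] [Algebra k E]

variable (p k E) in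
/-- The field of `p`-th powers. -/
abbrev Ep : IntermediateField k E := IntermediateField.adjoin k (Set.range fun x : E => x ^ p)

variable (p k E) in
lemma exists_pth (c : k) : ∃ b : k, b ^ p = c := by
  have : ExpChar k p := ExpChar.prime hp.out
  have : PerfectRing k p := PerfectField.toPerfectRing p
  obtain ⟨b, hb⟩ := surjective_frobenius k p c
  exact ⟨b, hb⟩

variable (p k E) in
/-- Frobenius as a ring homomorphism to the field of `p`-th powers. -/
noncomputable def phi : E →+* Ep p k E :=
  have : CharP E p := charP_of_injective_algebraMap (algebraMap k E).injective p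
  (frobenius E p).codRestrict (Ep p k E).toSubfield
    (fun x => IntermediateField.subset_adjoin k _ ⟨x, rfl⟩)

@[simp] lemma phi_coe (x : E) : ((phi p k E x : Ep p k E) : E) = x ^ p := rfl

lemma phi_surj : Function.Surjective (phi p k E) := by
  have : CharP E p := charP_of_injective_algebraMap (algebraMap k E).injective p
  intro y
  have h : (y : E) ∈ (frobenius E p).fieldRange := by
    have h1 : Ep p k E ≤ (frobenius E p).fieldRange.toIntermediateField (by
        intro c
        obtain ⟨b, hb⟩ := exists_pth p k c
        exact ⟨algebraMap k E b, by rw [frobenius_def, ← map_pow, hb]⟩) := by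
      rw [IntermediateField.adjoin_le_iff]
      rintro _ ⟨x, rfl⟩
      exact ⟨x, rfl⟩
    exact h1 y.2
  obtain ⟨x, hx⟩ := h
  exact ⟨x, Subtype.ext hx⟩

lemma phi_algebraMap (c : k) :
    phi p k E (algebraMap k E c) = algebraMap k (Ep p k E) (c ^ p) := by
  apply Subtype.ext
  rw [phi_coe, ← map_pow]
  rfl

lemma phi_mem {N : ℕ} (H : Fin (N + 1) → E) (i : Fin (N + 1)) {a : E}
    (ha : a ∈ Algebra.adjoin k (Set.range fun j => H j / H i)) :
    phi p k E a ∈ Algebra.adjoin k (Set.range fun j => phi p k E (H j) / phi p k E (H i)) := by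
  induction ha using Algebra.adjoin_induction with
  | mem x hx =>
    obtain ⟨j, rfl⟩ := hx
    exact Algebra.subset_adjoin ⟨j, by simp only [map_div₀]⟩
  | algebraMap c =>
    rw [phi_algebraMap]
    exact Subalgebra.algebraMap_mem _ _
  | add x y _ _ h1 h2 =>
    rw [map_add]
    exact Subalgebra.add_mem _ h1 h2
  | mul x y _ _ h1 h2 =>
    rw [map_mul]
    exact Subalgebra.mul_mem _ h1 h2

lemma mem_phi {N : ℕ} (H : Fin (N + 1) → E) (i : Fin (N + 1)) {y : Ep p k E}
    (hy : y ∈ Algebra.adjoin k (Set.range fun j => phi p k E (H j) / phi p k E (H i))) :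
    ∃ a ∈ Algebra.adjoin k (Set.range fun j => H j / H i), phi p k E a = y := by
  induction hy using Algebra.adjoin_induction with
  | mem x hx =>
    obtain ⟨j, rfl⟩ := hx
    exact ⟨H j / H i, Algebra.subset_adjoin ⟨j, rfl⟩, by simp only [map_div₀]⟩
  | algebraMap c =>
    obtain ⟨b, hb⟩ := exists_pth p k c
    exact ⟨algebraMap k E b, Subalgebra.algebraMap_mem _ _, by rw [phi_algebraMap, hb]⟩
  | add x y _ _ h1 h2 =>
    obtain ⟨a, ha, rfl⟩ := h1
    obtain ⟨b, hb, rfl⟩ := h2
    exact ⟨a + b, Subalgebra.add_mem _ ha hb, by rw [map_add]⟩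
  | mul x y _ _ h1 h2 =>
    obtain ⟨a, ha, rfl⟩ := h1
    obtain ⟨b, hb, rfl⟩ := h2
    exact ⟨a * b, Subalgebra.mul_mem _ ha hb, by rw [map_mul]⟩

/-- Frobenius on a chart. -/
lemma exists_equiv {N : ℕ} (H : Fin (N + 1) → E) (i : Fin (N + 1)) :
    ∃ e : Algebra.adjoin k (Set.range fun j => H j / H i) ≃+*
      Algebra.adjoin k (Set.range fun j => phi p k E (H j) / phi p k E (H i)),
      ∀ a, ((e a : Ep p k E)) = phi p k E a := by
  let f : Algebra.adjoin k (Set.range fun j => H j / H i) →+*
      Algebra.adjoin k (Set.range fun j => phi p k E (H j) / phi p k E (H i)) :=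
    ((phi p k E).comp (Subalgebra.val _).toRingHom).codRestrict
      (Algebra.adjoin k (Set.range fun j => phi p k E (H j) / phi p k E (H i))).toSubring
      (fun a => phi_mem H i a.2)
  refine ⟨RingEquiv.ofBijective f ⟨?_, ?_⟩, fun a => rfl⟩
  · intro a b hab
    apply Subtype.ext
    apply (phi p k E).injective
    exact congrArg Subtype.val hab
  · intro y
    obtain ⟨a, ha, h⟩ := mem_phi H i y.2
    exact ⟨⟨a, ha⟩, Subtype.ext h⟩

end

theorem hasModel_pow (p : ℕ) [Fact p.Prime] (k E : Type u) [Field k] [PerfectField k] [CharP k p]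
    [Field E] [Algebra k E] (h : HasModel k E) :
    HasModel k (IntermediateField.adjoin k (Set.range fun x : E => x ^ p)) := by
  obtain ⟨N, H, h0, h1⟩ := h
  refine ⟨N, fun j => phi p k E (H j), fun i => ?_, fun i => ?_⟩
  · rw [map_ne_zero]
    exact h0 i
  · obtain ⟨e, he⟩ := exists_equiv (p := p) (k := k) H i
    constructor
    · have : ExpChar k p := ExpChar.prime Fact.out
      have : PerfectRing k p := PerfectField.toPerfectRing p
      have h2 : (algebraMap k (Algebra.adjoin k (Set.range fun j => H j / H i))).Smooth :=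
        RingHom.smooth_algebraMap.2 (h1 i).sm
      have h3 : algebraMap k (Algebra.adjoin k
          (Set.range fun j => phi p k E (H j) / phi p k E (H i))) =
          (e : _ →+* _).comp ((algebraMap k (Algebra.adjoin k (Set.range fun j => H j / H i))).comp
            ((frobeniusEquiv k p).symm : k →+* k)) := by
        apply RingHom.ext
        intro c
        apply Subtype.ext
        have h4 : ((frobeniusEquiv k p).symm c) ^ p = c := frobeniusEquiv_symm_pow_p k p c
        change algebraMap k (Ep p k E) c = ((e (algebraMap k _ ((frobeniusEquiv k p).symm c)) :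
          Algebra.adjoin k (Set.range fun j => phi p k E (H j) / phi p k E (H i))) : Ep p k E)
        rw [he]
        change _ = phi p k E (algebraMap k E ((frobeniusEquiv k p).symm c))
        rw [phi_algebraMap, h4]
      rw [← RingHom.smooth_algebraMap, h3]
      have hr := RingHom.Smooth.propertyIsLocal.respectsIso
      exact hr.1 _ e (hr.2 _ (frobeniusEquiv k p).symm h2)
    · intro x
      obtain ⟨y, rfl⟩ := phi_surj (p := p) (k := k) x
      obtain ⟨a, ha, b, hb, hb0, rfl⟩ := (h1 i).fr y
      refine ⟨phi p k E a, phi_mem H i ha, phi p k E b, phi_mem H i hb, ?_, ?_⟩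
      · rw [map_ne_zero]
        exact hb0
      · rw [map_mul, map_inv₀]

end Pool.Agent.TH26.WQ
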